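import Mathlib

/-!
# A nilpotent hypercomplex Lie algebra whose Obata connection has non-abelian holonomy

Let `A` be the solvable Lie algebra of the complex hyperbolic plane with its hypercomplex
structure.  The curvature operators of its Obata connection do not commute.  The Lie algebra
`A ⊗ t ℝ[t] / (t ^ 6)` is nilpotent of dimension `20`, and its Obata connection is the
`t`-linear extension of that of `A`.
-/

set_option autoImplicit false

attribute [local instance 100] LieRing.ofAssociativeRing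

set_option linter.unusedSimpArgs false

namespace Pool.Agent.Results.MP_590da2_gt.NonAbelianHolonomy

/-- A hypercomplex structure on a real Lie algebra `L`: three complex structures `J₁, J₂, J₃` with
`J₁ J₂ = - J₂ J₁ = J₃` and vanishing Nijenhuis tensors. -/
structure Hypercomplex (L : Type*) [LieRing L] [LieAlgebra ℝ L] where
  J₁ : L →ₗ[ℝ] L
  J₂ : L →ₗ[ℝ] L
  J₃ : L →ₗ[ℝ] L
  sq₁ : ∀ x, J₁ (J₁ x) = -x
  sq₂ : ∀ x, J₂ (J₂ x) = -x
  sq₃ : ∀ x, J₃ (J₃ x) = -x
  mul₁₂ : ∀ x, J₁ (J₂ x) = J₃ x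
  mul₂₁ : ∀ x, J₂ (J₁ x) = -J₃ x
  integrable₁ : ∀ x y, ⁅x, y⁆ + J₁ (⁅J₁ x, y⁆ + ⁅x, J₁ y⁆) - ⁅J₁ x, J₁ y⁆ = 0
  integrable₂ : ∀ x y, ⁅x, y⁆ + J₂ (⁅J₂ x, y⁆ + ⁅x, J₂ y⁆) - ⁅J₂ x, J₂ y⁆ = 0
  integrable₃ : ∀ x y, ⁅x, y⁆ + J₃ (⁅J₃ x, y⁆ + ⁅x, J₃ y⁆) - ⁅J₃ x, J₃ y⁆ = 0

namespace Hypercomplex

variable {L : Type*} [LieRing L] [LieAlgebra ℝ L] (H : Hypercomplex L)

/-- The Obata connection on left-invariant vector fields,
`∇_x y = 1/2 ([x, y] + J₁ [J₁ x, y] - J₂ [x, J₂ y] + J₃ [J₁ x, J₂ y])`. -/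
noncomputable def obata (x : L) : Module.End ℝ L :=
  (1 / 2 : ℝ) • (LieAlgebra.ad ℝ L x + H.J₁ ∘ₗ LieAlgebra.ad ℝ L (H.J₁ x) -
    H.J₂ ∘ₗ LieAlgebra.ad ℝ L x ∘ₗ H.J₂ + H.J₃ ∘ₗ LieAlgebra.ad ℝ L (H.J₁ x) ∘ₗ H.J₂)

theorem obata_apply (x y : L) : H.obata x y =
    (1 / 2 : ℝ) • (⁅x, y⁆ + H.J₁ ⁅H.J₁ x, y⁆ - H.J₂ ⁅x, H.J₂ y⁆ + H.J₃ ⁅H.J₁ x, H.J₂ y⁆) := rfl

theorem mul₃₁ (x : L) : H.J₃ (H.J₁ x) = H.J₂ x := by
  rw [← H.mul₁₂, H.mul₂₁, ← H.mul₁₂, map_neg, H.sq₁, neg_neg]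

theorem mul₁₃ (x : L) : H.J₁ (H.J₃ x) = -H.J₂ x := by
  rw [← H.mul₁₂, H.sq₁]

theorem mul₂₃ (x : L) : H.J₂ (H.J₃ x) = H.J₁ x := by
  have h := H.mul₂₁ (H.J₂ x)
  rw [H.mul₁₂] at h
  rw [h, ← H.mul₁₂, H.sq₂, map_neg, neg_neg]

theorem mul₃₂ (x : L) : H.J₃ (H.J₂ x) = -H.J₁ x := by
  rw [← H.mul₁₂, H.sq₂, map_neg]

/-- The Obata connection is torsion-free. -/
theorem obata_torsionFree (x y : L) : H.obata x y - H.obata y x = ⁅x, y⁆ := by
  have h1 := H.integrable₁ x y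
  have h2 := H.integrable₂ x y
  have h3 := H.integrable₃ (H.J₁ x) (H.J₁ y)
  rw [H.mul₃₁, H.mul₃₁] at h3
  simp only [map_add] at h1 h2 h3
  rw [obata_apply, obata_apply, ← lie_skew x y, ← lie_skew (H.J₁ y) x, ← lie_skew y (H.J₂ x),
    ← lie_skew (H.J₁ y) (H.J₂ x)]
  simp only [map_neg]
  linear_combination (norm := module) (1 / 2 : ℝ) • h1 - (1 / 2 : ℝ) • h2 + (1 / 2 : ℝ) • h3

/-- `∇ J₁ = 0`. -/
theorem obata_J₁ (x y : L) : H.obata x (H.J₁ y) = H.J₁ (H.obata x y) := by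
  have h1 := congrArg H.J₁ (H.integrable₁ x y)
  have h2 := congrArg H.J₃ (H.integrable₁ x (H.J₂ y))
  simp only [obata_apply, map_add, map_sub, map_smul, map_neg, H.sq₁, H.sq₂, H.sq₃, H.mul₁₂,
    H.mul₂₁, H.mul₃₁, H.mul₁₃, H.mul₂₃, H.mul₃₂, lie_neg, neg_lie, map_zero] at h1 h2 ⊢
  linear_combination (norm := module) (-1 / 2 : ℝ) • h1 + (1 / 2 : ℝ) • h2

/-- `∇ J₂ = 0`. -/
theorem obata_J₂ (x y : L) : H.obata x (H.J₂ y) = H.J₂ (H.obata x y) := by
  simp only [obata_apply, map_add, map_sub, map_smul, map_neg, H.sq₁, H.sq₂, H.sq₃, H.mul₁₂,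
    H.mul₂₁, H.mul₃₁, H.mul₁₃, H.mul₂₃, H.mul₃₂, lie_neg, neg_lie, map_zero]
  module

/-- `∇ J₃ = 0`. -/
theorem obata_J₃ (x y : L) : H.obata x (H.J₃ y) = H.J₃ (H.obata x y) := by
  rw [← H.mul₁₂, H.obata_J₁, H.obata_J₂, H.mul₁₂]

/-- The curvature `R(x, y) = [∇_x, ∇_y] - ∇_[x, y]`. -/
noncomputable def curvature (x y : L) : Module.End ℝ L :=
  H.obata x * H.obata y - H.obata y * H.obata x - H.obata ⁅x, y⁆

/-- The holonomy algebra of the left-invariant connection `∇`: the smallest Lie algebra of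
endomorphisms which contains all curvature operators `R(x, y)` and is closed under the commutators
with all `∇_x`. -/
noncomputable def holonomy : LieSubalgebra ℝ (Module.End ℝ L) :=
  sInf {h | (∀ x y, H.curvature x y ∈ h) ∧ ∀ x, ∀ T ∈ h, H.obata x * T - T * H.obata x ∈ h}

theorem curvature_mem_holonomy (x y : L) : H.curvature x y ∈ H.holonomy := by
  have h1 : H.curvature x y ∈ (H.holonomy : Set (Module.End ℝ L)) := by
    rw [holonomy, LieSubalgebra.coe_sInf]
    exact Set.mem_iInter₂.2 fun h hh => hh.1 x y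
  exact h1

end Hypercomplex

/-- The four-dimensional Lie algebra with basis `e₀, e₁, e₂, e₃` and brackets
`[e₀, e₁] = 2 e₁`, `[e₀, e₂] = e₂`, `[e₀, e₃] = e₃`, `[e₂, e₃] = - e₁`. -/
def A : Type := Fin 4 → ℝ

noncomputable instance : AddCommGroup A := inferInstanceAs (AddCommGroup (Fin 4 → ℝ))
noncomputable instance : Module ℝ A := inferInstanceAs (Module ℝ (Fin 4 → ℝ))

/-- The bracket of `A`. -/
noncomputable def br (u v : A) : A :=
  ![0, 2 * (u 0 * v 1 - u 1 * v 0) - (u 2 * v 3 - u 3 * v 2), u 0 * v 2 - u 2 * v 0,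
    u 0 * v 3 - u 3 * v 0]

/-- `A ⊗ t ℝ[t] / (t ^ 6)`: the function `x` stands for `∑ x i ⊗ t ^ (i + 1)`. -/
def T : Type := Fin 5 → A

noncomputable instance : AddCommGroup T := inferInstanceAs (AddCommGroup (Fin 5 → A))
noncomputable instance : Module ℝ T := inferInstanceAs (Module ℝ (Fin 5 → A))
instance : Module.Finite ℝ T := inferInstanceAs (Module.Finite ℝ (Fin 5 → Fin 4 → ℝ))

@[ext] theorem A.ext' {u v : A} (h0 : u 0 = v 0) (h1 : u 1 = v 1) (h2 : u 2 = v 2)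
    (h3 : u 3 = v 3) : u = v := by
  funext i; fin_cases i <;> assumption

@[simp] theorem A.add_apply (u v : A) (i : Fin 4) : (u + v) i = u i + v i := rfl
@[simp] theorem A.sub_apply (u v : A) (i : Fin 4) : (u - v) i = u i - v i := rfl
@[simp] theorem A.neg_apply (u : A) (i : Fin 4) : (-u) i = -u i := rfl
@[simp] theorem A.zero_apply (i : Fin 4) : (0 : A) i = 0 := rfl
@[simp] theorem A.smul_apply (c : ℝ) (u : A) (i : Fin 4) : (c • u) i = c * u i := rfl
@[simp] theorem br_zero (u v : A) : br u v 0 = 0 := rfl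
@[simp] theorem br_one (u v : A) :
    br u v 1 = 2 * (u 0 * v 1 - u 1 * v 0) - (u 2 * v 3 - u 3 * v 2) := rfl
@[simp] theorem br_two (u v : A) : br u v 2 = u 0 * v 2 - u 2 * v 0 := rfl
@[simp] theorem br_three (u v : A) : br u v 3 = u 0 * v 3 - u 3 * v 0 := rfl

@[ext] theorem T.ext' {x y : T} (h0 : x 0 = y 0) (h1 : x 1 = y 1) (h2 : x 2 = y 2)
    (h3 : x 3 = y 3) (h4 : x 4 = y 4) : x = y := by
  funext i; fin_cases i <;> assumption

@[simp] theorem T.add_apply (x y : T) (i : Fin 5) : (x + y) i = x i + y i := rfl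
@[simp] theorem T.sub_apply (x y : T) (i : Fin 5) : (x - y) i = x i - y i := rfl
@[simp] theorem T.neg_apply (x : T) (i : Fin 5) : (-x) i = -x i := rfl
@[simp] theorem T.zero_apply (i : Fin 5) : (0 : T) i = 0 := rfl
@[simp] theorem T.smul_apply (c : ℝ) (x : T) (i : Fin 5) : (c • x) i = c • x i := rfl

/-- The bracket of `T`. -/
noncomputable def brT (x y : T) : T :=
  ![0, br (x 0) (y 0), br (x 0) (y 1) + br (x 1) (y 0),
    br (x 0) (y 2) + br (x 1) (y 1) + br (x 2) (y 0),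
    br (x 0) (y 3) + br (x 1) (y 2) + br (x 2) (y 1) + br (x 3) (y 0)]

@[simp] theorem brT_zero (x y : T) : brT x y 0 = 0 := rfl
@[simp] theorem brT_one (x y : T) : brT x y 1 = br (x 0) (y 0) := rfl
@[simp] theorem brT_two (x y : T) : brT x y 2 = br (x 0) (y 1) + br (x 1) (y 0) := rfl
@[simp] theorem brT_three (x y : T) :
    brT x y 3 = br (x 0) (y 2) + br (x 1) (y 1) + br (x 2) (y 0) := rfl
@[simp] theorem brT_four (x y : T) :
    brT x y 4 = br (x 0) (y 3) + br (x 1) (y 2) + br (x 2) (y 1) + br (x 3) (y 0) := rfl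

noncomputable instance : Bracket T T := ⟨brT⟩

theorem lie_def (x y : T) : ⁅x, y⁆ = brT x y := rfl

noncomputable instance : LieRing T where
  add_lie x y z := by
    rw [lie_def, lie_def, lie_def]
    ext <;> simp <;> ring
  lie_add x y z := by
    rw [lie_def, lie_def, lie_def]
    ext <;> simp <;> ring
  lie_self x := by
    rw [lie_def]
    ext <;> simp <;> ring
  leibniz_lie x y z := by
    simp only [lie_def]
    ext <;> simp <;> ring

noncomputable instance : LieAlgebra ℝ T where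
  lie_smul c x y := by
    rw [lie_def, lie_def]
    ext <;> simp <;> ring

/-- A linear map of `A`, applied coefficientwise. -/
noncomputable def onT (f : A →ₗ[ℝ] A) : T →ₗ[ℝ] T where
  toFun x := fun i => f (x i)
  map_add' x y := by funext i; exact map_add f _ _
  map_smul' c x := by funext i; exact map_smul f _ _

@[simp] theorem onT_apply (f : A →ₗ[ℝ] A) (x : T) (i : Fin 5) : onT f x i = f (x i) := rfl

/-- `J₁` on `A`. -/
noncomputable def j₁ : A →ₗ[ℝ] A where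
  toFun u := ![-u 1, u 0, -u 3, u 2]
  map_add' u v := by ext <;> simp <;> ring
  map_smul' c u := by ext <;> simp

/-- `J₂` on `A`. -/
noncomputable def j₂ : A →ₗ[ℝ] A where
  toFun u := ![-u 2, u 3, u 0, -u 1]
  map_add' u v := by ext <;> simp <;> ring
  map_smul' c u := by ext <;> simp

/-- `J₃` on `A`. -/
noncomputable def j₃ : A →ₗ[ℝ] A where
  toFun u := ![-u 3, -u 2, u 1, u 0]
  map_add' u v := by ext <;> simp <;> ring
  map_smul' c u := by ext <;> simp

@[simp] theorem j₁_0 (u : A) : j₁ u 0 = -u 1 := rfl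
@[simp] theorem j₁_1 (u : A) : j₁ u 1 = u 0 := rfl
@[simp] theorem j₁_2 (u : A) : j₁ u 2 = -u 3 := rfl
@[simp] theorem j₁_3 (u : A) : j₁ u 3 = u 2 := rfl
@[simp] theorem j₂_0 (u : A) : j₂ u 0 = -u 2 := rfl
@[simp] theorem j₂_1 (u : A) : j₂ u 1 = u 3 := rfl
@[simp] theorem j₂_2 (u : A) : j₂ u 2 = u 0 := rfl
@[simp] theorem j₂_3 (u : A) : j₂ u 3 = -u 1 := rfl
@[simp] theorem j₃_0 (u : A) : j₃ u 0 = -u 3 := rfl
@[simp] theorem j₃_1 (u : A) : j₃ u 1 = -u 2 := rfl
@[simp] theorem j₃_2 (u : A) : j₃ u 2 = u 1 := rfl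
@[simp] theorem j₃_3 (u : A) : j₃ u 3 = u 0 := rfl

/-- The hypercomplex structure of `T`. -/
noncomputable def hyp : Hypercomplex T where
  J₁ := onT j₁
  J₂ := onT j₂
  J₃ := onT j₃
  sq₁ x := by ext <;> simp
  sq₂ x := by ext <;> simp
  sq₃ x := by ext <;> simp
  mul₁₂ x := by ext <;> simp
  mul₂₁ x := by ext <;> simp
  integrable₁ x y := by
    simp only [lie_def]
    ext <;> simp <;> ring
  integrable₂ x y := by
    simp only [lie_def]
    ext <;> simp <;> ring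
  integrable₃ x y := by
    simp only [lie_def]
    ext <;> simp <;> ring

/-- `T` is nilpotent. -/
theorem isNilpotent : LieRing.IsNilpotent T := by
  rw [LieAlgebra.isNilpotent_iff_forall (R := ℝ)]
  intro x
  refine ⟨5, ?_⟩
  have h : ∀ y : T, (LieAlgebra.ad ℝ T x) y = brT x y := fun y => rfl
  apply LinearMap.ext
  intro y
  simp only [pow_succ, pow_zero, Module.End.mul_apply, Module.End.one_apply, h]
  ext <;> simp

/-- The basis vectors of `A`, times `t`. -/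
noncomputable def e (k : Fin 4) : T := ![Pi.single k 1, 0, 0, 0, 0]

@[simp] theorem e_zero (k i : Fin 4) : e k 0 i = if i = k then 1 else 0 := by
  simp [e, Pi.single_apply]

theorem not_commute : hyp.curvature (e 0) (e 1) * hyp.curvature (e 0) (e 2) ≠
    hyp.curvature (e 0) (e 2) * hyp.curvature (e 0) (e 1) := by
  intro h
  have h1 := congrFun (congrFun (DFunLike.congr_fun h (e 0)) 4) 3
  simp only [Hypercomplex.curvature, Module.End.mul_apply, LinearMap.sub_apply,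
    Hypercomplex.obata_apply, lie_def, hyp] at h1
  simp [e] at h1
  norm_num at h1

/-- There is a nilpotent hypercomplex Lie algebra whose Obata connection has two curvature
operators which do not commute; so its holonomy algebra is not abelian. -/
theorem result : ∃ (L : Type) (_ : LieRing L) (_ : LieAlgebra ℝ L) (_ : Module.Finite ℝ L)
    (H : Hypercomplex L), LieRing.IsNilpotent L ∧ ¬ IsLieAbelian H.holonomy ∧
      ∃ x y z w : L, H.curvature x y * H.curvature z w ≠ H.curvature z w * H.curvature x y := by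
  refine ⟨T, inferInstance, inferInstance, inferInstance, hyp, isNilpotent, fun hab => ?_,
    _, _, _, _, not_commute⟩
  apply not_commute
  have h := hab.trivial ⟨_, hyp.curvature_mem_holonomy (e 0) (e 1)⟩
    ⟨_, hyp.curvature_mem_holonomy (e 0) (e 2)⟩
  have h1 := congrArg Subtype.val h
  exact sub_eq_zero.1 h1

end Pool.Agent.Results.MP_590da2_gt.NonAbelianHolonomy
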